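import Pool.Agent.H46R3.DG.Stmts

set_option autoImplicit false

namespace Pool.Agent.H8R3.DG

open Finset
open Pool.Agent.H46R3.DG

theorem cnt_le_count (q : ℕ) (hq : 1 < q) (b : ℕ) : ∀ (L m : ℕ),
    L ≤ (Nat.digits q m).length → cnt q m L b ≤ (Nat.digits q m).count b := by
  intro L
  induction L with
  | zero =>
    intro m _
    simp [cnt]
  | succ L ih =>
    intro m hL
    have hm : 0 < m := by
      rcases Nat.eq_zero_or_pos m with h | h
      · subst h
        simp at hL
      · exact h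
    rw [Nat.digits_def' hq hm] at hL ⊢
    rw [List.length_cons] at hL
    have h1 := ih (m / q) (by omega)
    have h2 : cnt q m (L + 1) b = cnt q (m / q) L b + if m % q = b then 1 else 0 := by
      simp only [cnt, Finset.card_filter]
      rw [Finset.sum_range_succ']
      congr 1
      · refine Finset.sum_congr rfl fun i _ => ?_
        rw [pow_succ', ← Nat.div_div_eq_div_mul]
      · simp
    rw [h2, List.count_cons]
    have h3 : (if m % q = b then 1 else 0) = (if (m % q == b) = true then 1 else 0) := by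
      simp
    rw [h3]
    omega

theorem taskI : TaskI := by
  intro p q hp hq hpq hLow C hC
  have hq1 : 1 < q := hq.one_lt
  have hq0 : (0 : ℝ) < q := by exact_mod_cast hq.pos
  set C0 : ℝ := q * (C + 2) with hC0
  have hC0p : 0 < C0 := by positivity
  obtain ⟨δ0, K0, hδ0, hK0, hlow⟩ := hLow C0 1 hC0p one_pos
  have hl2 : 0 < Real.log 2 := Real.log_pos (by norm_num)
  have hlq : 0 < Real.log q := Real.log_pos (by exact_mod_cast hq1)
  set C1 : ℝ := C0 * Real.log q / Real.log 2 with hC1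
  have hC1p : 0 < C1 := by positivity
  refine ⟨min δ0 (1 / 2), K0 + 2 * C1 + 1, by positivity, by positivity, fun N hN => ?_⟩
  have hNR : (1 : ℝ) ≤ N := by exact_mod_cast hN
  have hpow1 : (1 : ℝ) ≤ (N : ℝ) ^ (1 - min δ0 (1 / 2)) :=
    Real.one_le_rpow hNR (by have := min_le_right δ0 (1 / 2 : ℝ); linarith)
  rcases Nat.lt_or_ge 1 N with hN2 | hN2
  swap
  · have hN1 : N = 1 := by omega
    subst hN1
    have h1 : ((#{n ∈ range 1 | ∃ b < q, ((Nat.digits q (p ^ n)).count b : ℝ) ≤
        C * Real.log ((1 : ℕ) : ℝ)} : ℕ) : ℝ) ≤ 1 := by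
      have := Finset.card_filter_le (range 1)
        (fun n => ∃ b < q, ((Nat.digits q (p ^ n)).count b : ℝ) ≤ C * Real.log ((1 : ℕ) : ℝ))
      rw [Finset.card_range] at this
      exact_mod_cast this
    refine h1.trans ?_
    have h2 : (1 : ℝ) ≤ K0 + 2 * C1 + 1 := by linarith
    nlinarith
  have hlogN : 0 < Real.log N := Real.log_pos (by exact_mod_cast hN2)
  set W : ℕ := ⌊C0 * Real.log N⌋₊ with hW
  have hWle : (W : ℝ) ≤ C0 * Real.log N := Nat.floor_le (by positivity)
  -- the set is contained in the union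
  have hsub : {n ∈ range N | ∃ b < q, ((Nat.digits q (p ^ n)).count b : ℝ) ≤ C * Real.log N} ⊆
      {n ∈ range N | ∃ b < q, 1 * Real.log N <
        |(cnt q (p ^ n) ⌊C0 * Real.log N⌋₊ b : ℝ) - C0 * Real.log N / q|} ∪
        range (⌊C1 * Real.log N⌋₊ + 1) := by
    intro n hn
    rw [Finset.mem_filter] at hn
    obtain ⟨hnN, b, hb, hcount⟩ := hn
    rw [Finset.mem_union]
    by_cases hsmall : n < ⌊C1 * Real.log N⌋₊ + 1
    · right
      exact Finset.mem_range.2 hsmall
    left
    rw [Finset.mem_filter]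
    refine ⟨hnN, b, hb, ?_⟩
    by_contra hcon
    rw [not_lt, one_mul] at hcon
    rw [not_lt] at hsmall
    -- q ^ W ≤ p ^ n
    have hnC : C1 * Real.log N < n := by
      have h1 := Nat.lt_floor_add_one (C1 * Real.log N)
      have h2 : ((⌊C1 * Real.log N⌋₊ + 1 : ℕ) : ℝ) ≤ n := by exact_mod_cast hsmall
      push_cast at h2
      linarith
    have hlen : W ≤ (Nat.digits q (p ^ n)).length := by
      have h1 : p ^ n < q ^ (Nat.digits q (p ^ n)).length :=
        Nat.lt_base_pow_length_digits hq1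
      have h2 : q ^ W ≤ p ^ n := by
        have h3 : Real.log ((q : ℝ) ^ W) ≤ Real.log ((p : ℝ) ^ n) := by
          rw [Real.log_pow, Real.log_pow]
          have h4 : (W : ℝ) * Real.log q ≤ C0 * Real.log N * Real.log q :=
            mul_le_mul_of_nonneg_right hWle hlq.le
          have h5 : C0 * Real.log N * Real.log q = C1 * Real.log N * Real.log 2 := by
            rw [hC1]
            field_simp
          have h6 : Real.log 2 ≤ Real.log p :=
            Real.log_le_log (by norm_num) (by exact_mod_cast hp.two_le)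
          have h7 : C1 * Real.log N * Real.log 2 ≤ n * Real.log p :=
            mul_le_mul hnC.le h6 hl2.le (by positivity)
          linarith
        have h8 : (q : ℝ) ^ W ≤ (p : ℝ) ^ n :=
          (Real.log_le_log_iff (by positivity) (by have := hp.pos; positivity)).1 h3
        exact_mod_cast h8
      exact (Nat.pow_lt_pow_iff_right hq1).1 (h2.trans_lt h1) |>.le
    have hcc := cnt_le_count q hq1 b W (p ^ n) hlen
    have hcc' : (cnt q (p ^ n) W b : ℝ) ≤ ((Nat.digits q (p ^ n)).count b : ℝ) := by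
      exact_mod_cast hcc
    have h9 := (abs_le.1 hcon).1
    have h10 : C0 * Real.log N / q = (C + 2) * Real.log N := by
      rw [hC0]
      field_simp
    rw [h10] at h9
    have h11 : (cnt q (p ^ n) ⌊C0 * Real.log N⌋₊ b : ℝ) = (cnt q (p ^ n) W b : ℝ) := rfl
    rw [h11] at h9
    nlinarith
  have hcard := (Finset.card_le_card hsub).trans (Finset.card_union_le _ _)
  rw [Finset.card_range] at hcard
  have hcard' : ((#{n ∈ range N | ∃ b < q, ((Nat.digits q (p ^ n)).count b : ℝ) ≤
      C * Real.log N} : ℕ) : ℝ) ≤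
      ((#{n ∈ range N | ∃ b < q, 1 * Real.log N <
        |(cnt q (p ^ n) ⌊C0 * Real.log N⌋₊ b : ℝ) - C0 * Real.log N / q|} : ℕ) : ℝ) +
        ((⌊C1 * Real.log N⌋₊ : ℝ) + 1) := by
    exact_mod_cast hcard
  have h1 := hlow N hN
  have hfl : (⌊C1 * Real.log N⌋₊ : ℝ) ≤ C1 * Real.log N := Nat.floor_le (by positivity)
  have hlg : Real.log N ≤ 2 * (N : ℝ) ^ (1 / 2 : ℝ) := by
    have := Real.log_le_rpow_div (x := (N : ℝ)) (ε := 1 / 2) (by positivity) (by norm_num)
    linarith
  have hp1 : (N : ℝ) ^ (1 - δ0) ≤ (N : ℝ) ^ (1 - min δ0 (1 / 2)) :=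
    Real.rpow_le_rpow_of_exponent_le hNR (by have := min_le_left δ0 (1 / 2 : ℝ); linarith)
  have hp2 : (N : ℝ) ^ (1 / 2 : ℝ) ≤ (N : ℝ) ^ (1 - min δ0 (1 / 2)) :=
    Real.rpow_le_rpow_of_exponent_le hNR (by have := min_le_right δ0 (1 / 2 : ℝ); linarith)
  have h2 : K0 * (N : ℝ) ^ (1 - δ0) ≤ K0 * (N : ℝ) ^ (1 - min δ0 (1 / 2)) :=
    mul_le_mul_of_nonneg_left hp1 hK0.le
  have h3 : C1 * Real.log N ≤ C1 * (2 * (N : ℝ) ^ (1 - min δ0 (1 / 2))) :=
    mul_le_mul_of_nonneg_left (hlg.trans (by linarith)) hC1p.le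
  calc _ ≤ _ := hcard'
    _ ≤ K0 * (N : ℝ) ^ (1 - min δ0 (1 / 2)) + (C1 * (2 * (N : ℝ) ^ (1 - min δ0 (1 / 2))) +
        (N : ℝ) ^ (1 - min δ0 (1 / 2))) := by linarith
    _ = _ := by ring

end Pool.Agent.H8R3.DG
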